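import Pool.Agent.V11304.SQ.QOne
import Pool.Agent.V11304.SQ.QTwo

/-!
# MP_d2c11a_nt: both questions (both true)

Q1: the terms are those of `₂F₁(1/6, 5/6; 3/2; 1)`. Modulo `p` the sum splits at `(p-1)/2` into two
terminating hypergeometric sums, both evaluated with `∑ (-4)^k C(n+k, 2k) = (-1)^n (2n+1)` and
`∑ (-4)^k C(n+k, 2k+1) = -(-1)^n n`.

Q2: `t_k = 16^(k-1) C(3k-2, k-1) / k = 16^(k-1) (2 C(3k-2, k-1) - C(3k-2, k))`. The expansion follows from the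
differential equation of `cos (α arcsin z)`, and at the end points from the bound `O(n^(-3/2))` for the
coefficients.
-/

set_option autoImplicit false

namespace Pool.Agent.Results.MP_d2c11a_nt.Full

open Finset Pool.Agent.V11304.PI

/-- the numbers `s_n` -/
def s (n : ℕ) : ℚ :=
  ((6 * n).factorial : ℚ) * (n.factorial : ℚ) /
    (2 * (2 * n + 1) * ((3 * n).factorial : ℚ) * ((2 * n).factorial : ℚ) ^ 2)

/-- the sum `S_p` -/
def S (p : ℕ) : ℚ := ∑ k ∈ Ico 1 p, s k / 108 ^ k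

/-- `x ≡ 0 (mod p)` in the ring of rational numbers with denominator prime to `p` -/
def CongZero (p : ℕ) (x : ℚ) : Prop := ∃ u : ℚ, ¬ p ∣ u.den ∧ x = (p : ℚ) * u

/-- the function `f` -/
noncomputable def f (x : ℝ) : ℝ := 1 / 12 * Real.cos (2 / 3 * Real.arccos (6 * Real.sqrt 3 * x))

/-- Q1: for every prime `p > 3`, `S_p ≡ 0 (mod p)` if `p ≡ 1, 11 (mod 12)` and `S_p ≡ -1 (mod p)` if
`p ≡ 5, 7 (mod 12)`. Q2: there are positive integers `t_k` (`k ≥ 1`) with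
`f(x) = 1/24 + ∑_{k ≥ 0} s_k x^(2k+1) - ∑_{k ≥ 1} t_k x^(2k)` for `|x| ≤ 1/(6√3)` and `p ∣ t_p + 2` for every
prime `p`. -/
theorem result :
    (∀ p : ℕ, p.Prime → 3 < p →
      ((p % 12 = 1 ∨ p % 12 = 11) → CongZero p (S p)) ∧
      ((p % 12 = 5 ∨ p % 12 = 7) → CongZero p (S p - (-1)))) ∧
    ∃ t : ℕ → ℤ, (∀ k, 1 ≤ k → 0 < t k) ∧
      (∀ x : ℝ, |x| ≤ 1 / (6 * Real.sqrt 3) →
        Summable (fun k : ℕ => (s k : ℝ) * x ^ (2 * k + 1)) ∧
        Summable (fun k : ℕ => (t (k + 1) : ℝ) * x ^ (2 * (k + 1))) ∧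
        f x = 1 / 24 + ∑' k : ℕ, (s k : ℝ) * x ^ (2 * k + 1) -
          ∑' k : ℕ, (t (k + 1) : ℝ) * x ^ (2 * (k + 1))) ∧
      ∀ p : ℕ, p.Prime → (p : ℤ) ∣ t p + 2 := by
  refine ⟨?_, fun k => Pool.Agent.V11304.SQ.T (k - 1), ?_, ?_, ?_⟩
  · intro p hp h3
    have hF : Fact p.Prime := ⟨hp⟩
    have h := Pool.Agent.V11304.SQ.q_one (p := p) h3
    constructor
    · intro h1
      obtain ⟨u, hu, h2⟩ := (h.1 h1).den
      exact ⟨u, hu, by rw [pow_one] at h2; exact h2⟩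
    · intro h1
      obtain ⟨u, hu, h2⟩ := (h.2 h1).den
      refine ⟨u, hu, ?_⟩
      rw [pow_one] at h2
      rw [sub_neg_eq_add]
      exact h2
  · intro k _
    exact Pool.Agent.V11304.SQ.T_pos _
  · intro x hx
    exact Pool.Agent.V11304.SQ.expansion x hx
  · intro p hp
    exact Pool.Agent.V11304.SQ.T_mod p hp

end Pool.Agent.Results.MP_d2c11a_nt.Full
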